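import Mathlib

open Filter Topology Finset
open scoped Nat

namespace Pool.Agent.Lib.AlmostAllCL

/-- the summand of the second moment ratio -/
noncomputable def q (m k : ℕ) : ℝ :=
  if k ≤ m then (m.choose k : ℝ) * (numDerangements (m - k) : ℝ) ^ 2 * (m : ℝ) ^ k *
    ((m : ℝ) / ((m : ℝ) - 1)) ^ (m - k) / ((m ! : ℝ)) ^ 2 else 0

lemma pow_le_aux (n k : ℕ) (h : k ≤ n) : ((n : ℝ) + 1) ^ k ≤ Real.exp 1 * (n : ℝ) ^ k := by
  rcases Nat.eq_zero_or_pos n with rfl | hn
  · have : k = 0 := by omega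
    subst this
    simp
  · have hn' : (0 : ℝ) < n := by exact_mod_cast hn
    have e1 : ((n : ℝ) + 1) = n * (1 / n + 1) := by
      field_simp
      ring
    rw [e1, mul_pow, mul_comm]
    refine mul_le_mul_of_nonneg_right ?_ (by positivity)
    calc (1 / (n : ℝ) + 1) ^ k ≤ (Real.exp (1 / n)) ^ k :=
          pow_le_pow_left₀ (by positivity) (Real.add_one_le_exp _) k
      _ = Real.exp (k * (1 / n)) := by rw [← Real.exp_nat_mul]
      _ ≤ Real.exp 1 := by
          apply Real.exp_le_exp.2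
          rw [mul_one_div, div_le_one hn']
          exact_mod_cast h

lemma pow_le_desc (k : ℕ) : ∀ m : ℕ, k ≤ m →
    (m : ℝ) ^ k ≤ Real.exp 1 ^ k * (m.descFactorial k : ℝ) := by
  induction k with
  | zero => intro m _; simp
  | succ k ih =>
    intro m hm
    obtain ⟨n, rfl⟩ : ∃ n, m = n + 1 := ⟨m - 1, by omega⟩
    have h1 := ih n (by omega)
    have h2 := pow_le_aux n k (by omega)
    rw [Nat.succ_descFactorial_succ]
    push_cast
    calc ((n : ℝ) + 1) ^ (k + 1) = ((n : ℝ) + 1) ^ k * (n + 1) := pow_succ _ _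
      _ ≤ (Real.exp 1 * (n : ℝ) ^ k) * (n + 1) := mul_le_mul_of_nonneg_right h2 (by positivity)
      _ ≤ (Real.exp 1 * (Real.exp 1 ^ k * (n.descFactorial k : ℝ))) * (n + 1) := by
          gcongr
      _ = Real.exp 1 ^ (k + 1) * (((n : ℝ) + 1) * (n.descFactorial k : ℝ)) := by ring

lemma der_le (l : ℕ) : (numDerangements l : ℝ) ≤ (l ! : ℝ) := by
  have h : numDerangements l ≤ l ! := by
    have h1 := card_derangements_eq_numDerangements (Fin l)
    have h2 : Fintype.card (derangements (Fin l)) ≤ Fintype.card (Equiv.Perm (Fin l)) :=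
      Fintype.card_subtype_le _
    rw [h1, Fintype.card_perm, Fintype.card_fin] at h2
    exact h2
  exact_mod_cast h

lemma q_eq (m k : ℕ) (h : k ≤ m) : q m k =
    1 / (k ! : ℝ) * ((numDerangements (m - k) : ℝ) / ((m - k)! : ℝ)) ^ 2 *
      ((m : ℝ) ^ k / (m.descFactorial k : ℝ)) * ((m : ℝ) / ((m : ℝ) - 1)) ^ (m - k) := by
  unfold q
  rw [if_pos h]
  have h1 : ((m - k)! : ℝ) * (m.descFactorial k : ℝ) = (m ! : ℝ) := by
    exact_mod_cast Nat.factorial_mul_descFactorial h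
  have h2 : (m.choose k : ℝ) * (k ! : ℝ) * ((m - k)! : ℝ) = (m ! : ℝ) := by
    exact_mod_cast Nat.choose_mul_factorial_mul_factorial h
  have p1 : ((m - k)! : ℝ) ≠ 0 := by positivity
  have p2 : (k ! : ℝ) ≠ 0 := by positivity
  have p3 : (m ! : ℝ) ≠ 0 := by positivity
  have p4 : (m.descFactorial k : ℝ) ≠ 0 := by
    intro h0; rw [h0, mul_zero] at h1; exact p3 h1.symm
  have h3 : (m.descFactorial k : ℝ) = (m ! : ℝ) / ((m - k)! : ℝ) := by
    field_simp; linarith [h1]
  have h4 : (m.choose k : ℝ) = (m ! : ℝ) / ((k ! : ℝ) * ((m - k)! : ℝ)) := by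
    field_simp; linarith [h2]
  rw [h3, h4]
  field_simp

lemma q_bound (m k : ℕ) (hm : 2 ≤ m) : ‖q m k‖ ≤ Real.exp 2 * (Real.exp 1 ^ k / (k ! : ℝ)) := by
  by_cases h : k ≤ m
  · rw [q_eq m k h]
    have hm1 : (1 : ℝ) ≤ (m : ℝ) - 1 := by
      have : (2 : ℝ) ≤ m := by exact_mod_cast hm
      linarith
    have a1 : ((numDerangements (m - k) : ℝ) / ((m - k)! : ℝ)) ^ 2 ≤ 1 := by
      have : (numDerangements (m - k) : ℝ) / ((m - k)! : ℝ) ≤ 1 := by
        rw [div_le_one (by positivity)]; exact der_le _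
      exact pow_le_one₀ (by positivity) this
    have a2 : (m : ℝ) ^ k / (m.descFactorial k : ℝ) ≤ Real.exp 1 ^ k := by
      have hp : (0 : ℝ) < (m.descFactorial k : ℝ) := by
        exact_mod_cast Nat.descFactorial_pos.2 h
      rw [div_le_iff₀ hp]; exact pow_le_desc k m h
    have a3 : ((m : ℝ) / ((m : ℝ) - 1)) ^ (m - k) ≤ Real.exp 2 := by
      have e1 : (m : ℝ) / ((m : ℝ) - 1) = 1 / ((m : ℝ) - 1) + 1 := by
        field_simp; ring
      rw [e1]
      calc (1 / ((m : ℝ) - 1) + 1) ^ (m - k) ≤ (Real.exp (1 / ((m : ℝ) - 1))) ^ (m - k) :=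
            pow_le_pow_left₀ (by positivity) (Real.add_one_le_exp _) _
        _ = Real.exp (((m - k : ℕ) : ℝ) * (1 / ((m : ℝ) - 1))) := by rw [← Real.exp_nat_mul]
        _ ≤ Real.exp 2 := by
            apply Real.exp_le_exp.2
            rw [mul_one_div, div_le_iff₀ (by linarith)]
            have : ((m - k : ℕ) : ℝ) ≤ m := by exact_mod_cast Nat.sub_le m k
            linarith
    have n0 : 0 ≤ ((m : ℝ) / ((m : ℝ) - 1)) ^ (m - k) := by
      apply pow_nonneg; apply div_nonneg (by positivity) (by linarith)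
    rw [Real.norm_of_nonneg (by positivity)]
    calc 1 / (k ! : ℝ) * ((numDerangements (m - k) : ℝ) / ((m - k)! : ℝ)) ^ 2 *
          ((m : ℝ) ^ k / (m.descFactorial k : ℝ)) * ((m : ℝ) / ((m : ℝ) - 1)) ^ (m - k)
        ≤ 1 / (k ! : ℝ) * 1 * (Real.exp 1 ^ k) * Real.exp 2 := by
          gcongr
      _ = Real.exp 2 * (Real.exp 1 ^ k / (k ! : ℝ)) := by ring
  · unfold q
    rw [if_neg h]
    simp only [norm_zero]
    positivity

lemma q_lim (k : ℕ) : Tendsto (fun m => q m k) atTop (𝓝 (Real.exp (-1) / (k ! : ℝ))) := by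
  -- pass to m = l + k
  rw [← tendsto_add_atTop_iff_nat (k + 2)]
  have hD : Tendsto (fun l : ℕ => (numDerangements (l + 2) : ℝ) / ((l + 2)! : ℝ)) atTop
      (𝓝 (Real.exp (-1))) :=
    (tendsto_add_atTop_iff_nat 2).2 numDerangements_tendsto_inv_e
  have hN : Tendsto (fun l : ℕ => ((l + (k + 2) : ℕ) : ℝ)) atTop atTop :=
    tendsto_natCast_atTop_atTop.comp (tendsto_add_atTop_nat (k + 2))
  have hC : Tendsto (fun l : ℕ => ∏ i ∈ range k, ((l + (k + 2) : ℕ) : ℝ) /
      (((l + (k + 2) : ℕ) : ℝ) - i)) atTop (𝓝 (∏ i ∈ range k, (1 : ℝ))) := by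
    apply tendsto_finsetProd
    intro i _
    have h1 : Tendsto (fun x : ℝ => x / (x - i)) atTop (𝓝 1) := by
      have h2 : Tendsto (fun x : ℝ => 1 + i * (x - i)⁻¹) atTop (𝓝 (1 + i * 0)) := by
        apply Tendsto.const_add
        apply Tendsto.const_mul
        exact tendsto_inv_atTop_zero.comp (tendsto_atTop_add_const_right _ (-(i : ℝ)) tendsto_id)
      rw [mul_zero, add_zero] at h2
      refine h2.congr' ?_
      filter_upwards [eventually_gt_atTop (i : ℝ)] with x hx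
      have : x - i ≠ 0 := (sub_pos.2 hx).ne'
      field_simp
      ring
    exact h1.comp hN
  rw [prod_const_one] at hC
  have hE : Tendsto (fun l : ℕ => (((l + (k + 2) : ℕ) : ℝ) / (((l + (k + 2) : ℕ) : ℝ) - 1)) ^ (l + 2))
      atTop (𝓝 (Real.exp 1)) := by
    have h1 : Tendsto (fun n : ℕ => (1 + 1 / (n : ℝ)) ^ n) atTop (𝓝 (Real.exp 1)) :=
      Real.tendsto_one_add_div_pow_exp 1
    have h2 : Tendsto (fun n : ℕ => 1 + 1 / (n : ℝ)) atTop (𝓝 1) := by
      have := (tendsto_one_div_atTop_nhds_zero_nat (𝕜 := ℝ)).const_add 1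
      simpa using this
    have h3 : Tendsto (fun n : ℕ => (1 + 1 / (n : ℝ)) ^ n * (1 + 1 / (n : ℝ)) /
        (1 + 1 / (n : ℝ)) ^ k) atTop (𝓝 (Real.exp 1 * 1 / 1 ^ k)) :=
      (h1.mul h2).div (h2.pow k) (by simp)
    rw [one_pow, mul_one, div_one] at h3
    have h4 := h3.comp (tendsto_add_atTop_nat (k + 1))
    refine h4.congr ?_
    intro l
    simp only [Function.comp]
    have hn : (0 : ℝ) < ((l + (k + 1) : ℕ) : ℝ) := by positivity
    have e1 : ((l + (k + 2) : ℕ) : ℝ) / (((l + (k + 2) : ℕ) : ℝ) - 1) =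
        1 + 1 / ((l + (k + 1) : ℕ) : ℝ) := by
      have : ((l + (k + 2) : ℕ) : ℝ) = ((l + (k + 1) : ℕ) : ℝ) + 1 := by push_cast; ring
      rw [this, add_sub_cancel_right]
      field_simp
    rw [e1]
    have hx : (1 + 1 / ((l + (k + 1) : ℕ) : ℝ)) ≠ 0 := by positivity
    rw [div_eq_iff (pow_ne_zero _ hx), ← pow_succ, ← pow_add]
    congr 1
    ring
  have key := (((hD.pow 2).const_mul (1 / (k ! : ℝ))).mul hC).mul hE
  have hval : 1 / (k ! : ℝ) * Real.exp (-1) ^ 2 * 1 * Real.exp 1 = Real.exp (-1) / (k ! : ℝ) := by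
    have : Real.exp (-1) * Real.exp 1 = 1 := by rw [← Real.exp_add]; simp
    calc 1 / (k ! : ℝ) * Real.exp (-1) ^ 2 * 1 * Real.exp 1
        = 1 / (k ! : ℝ) * Real.exp (-1) * (Real.exp (-1) * Real.exp 1) := by ring
      _ = Real.exp (-1) / (k ! : ℝ) := by rw [this]; ring
  rw [hval] at key
  refine key.congr ?_
  intro l
  have hk : k ≤ l + (k + 2) := by omega
  rw [q_eq _ k hk]
  have e2 : l + (k + 2) - k = l + 2 := by omega
  rw [e2]
  congr 2
  rw [Nat.descFactorial_eq_prod_range, Nat.cast_prod, prod_div_distrib, prod_const, card_range]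
  congr 1
  refine prod_congr rfl fun i hi => ?_
  have hi' : i < k := mem_range.1 hi
  rw [Nat.cast_sub (by omega)]

lemma sum_lim : Tendsto (fun m => ∑ k ∈ range (m + 1), q m k) atTop (𝓝 1) := by
  have h1 : Tendsto (fun m => ∑' k, q m k) atTop (𝓝 (∑' k : ℕ, Real.exp (-1) / (k ! : ℝ))) := by
    apply tendsto_tsum_of_dominated_convergence
      (bound := fun k => Real.exp 2 * (Real.exp 1 ^ k / (k ! : ℝ)))
    · exact (Real.summable_pow_div_factorial _).mul_left _
    · intro k; exact q_lim k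
    · filter_upwards [eventually_ge_atTop 2] with m hm k
      exact q_bound m k hm
  have h2 : (∑' k : ℕ, Real.exp (-1) / (k ! : ℝ)) = 1 := by
    have h3 : (∑' k : ℕ, (1 : ℝ) / (k ! : ℝ)) = Real.exp 1 := by
      rw [Real.exp_eq_exp_ℝ, NormedSpace.exp_eq_tsum_div]
      simp
    have h4 : (fun k : ℕ => Real.exp (-1) / (k ! : ℝ)) = fun k => Real.exp (-1) * (1 / (k ! : ℝ)) := by
      funext k; ring
    rw [h4, tsum_mul_left, h3, ← Real.exp_add]
    simp
  rw [h2] at h1
  refine h1.congr ?_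
  intro m
  apply tsum_eq_sum
  intro k hk
  unfold q
  rw [if_neg]
  intro h
  exact hk (mem_range.2 (by omega))

end Pool.Agent.Lib.AlmostAllCL
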