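import Mathlib

open Filter Topology Finset
open scoped Nat

namespace Pool.Agent.Lib.AlmostAllCL

open Equiv

/-- number of permutations with two prescribed values -/
noncomputable def cnt {m : ℕ} (a b a' b' : Fin m) : ℕ :=
  (univ.filter fun g : Perm (Fin m) => g a = b ∧ g a' = b').card

lemma one_aux {m : ℕ} (a b b' : Fin m) :
    (univ.filter fun g : Perm (Fin m) => g a = b).card =
    (univ.filter fun g : Perm (Fin m) => g a = b').card := by
  refine card_bij' (fun g _ => swap b b' * g) (fun g _ => swap b b' * g) ?_ ?_ ?_ ?_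
  · intro g hg; simp only [mem_filter, mem_univ, true_and] at hg ⊢
    simp [hg]
  · intro g hg; simp only [mem_filter, mem_univ, true_and] at hg ⊢
    simp [hg]
  · intro g _; ext x; simp
  · intro g _; ext x; simp

lemma one_count {m : ℕ} (a b : Fin m) :
    m * (univ.filter fun g : Perm (Fin m) => g a = b).card = m ! := by
  have h : ∑ b' : Fin m, (univ.filter fun g : Perm (Fin m) => g a = b').card =
      (univ : Finset (Perm (Fin m))).card := by
    rw [← card_eq_sum_card_fiberwise (fun g _ => mem_univ _)]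
  rw [sum_congr rfl (fun b' _ => one_aux a b' b)] at h
  simp only [sum_const, card_univ, Fintype.card_fin, smul_eq_mul, Fintype.card_perm] at h
  exact h

lemma two_aux {m : ℕ} (a a' b b' d d' : Fin m) (hb : b ≠ b') (hd : d ≠ d') :
    cnt a b a' b' = cnt a d a' d' := by
  obtain ⟨h, h1, h2⟩ : ∃ h : Perm (Fin m), h b = d ∧ h b' = d' := by
    refine ⟨swap (swap b d b') d' * swap b d, ?_, ?_⟩
    · rw [Perm.mul_apply, swap_apply_left, swap_apply_of_ne_of_ne _ hd]
      intro h
      have : swap b d b' = swap b d b := by rw [swap_apply_left]; exact h.symm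
      exact hb ((swap b d).injective this).symm
    · rw [Perm.mul_apply, swap_apply_left]
  unfold cnt
  refine card_bij' (fun g _ => h * g) (fun g _ => h⁻¹ * g) ?_ ?_ ?_ ?_
  · intro g hg; simp only [mem_filter, mem_univ, true_and] at hg ⊢
    simp [hg.1, hg.2, h1, h2]
  · intro g hg; simp only [mem_filter, mem_univ, true_and] at hg ⊢
    simp [hg.1, hg.2, ← h1, ← h2]
  · intro g _; simp
  · intro g _; simp

lemma two_count {m : ℕ} (a a' b b' : Fin m) (ha : a ≠ a') (hb : b ≠ b') :
    (m * m - m) * cnt a b a' b' = m ! := by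
  have h : ∑ p ∈ (univ : Finset (Fin m)).offDiag, cnt a p.1 a' p.2 =
      (univ : Finset (Perm (Fin m))).card := by
    rw [card_eq_sum_card_fiberwise (f := fun g : Perm (Fin m) => (g a, g a'))
      (t := (univ : Finset (Fin m)).offDiag)]
    · refine sum_congr rfl fun p _ => ?_
      unfold cnt
      congr 1
      ext g
      simp [Prod.ext_iff]
    · intro g _
      simp [ha]
  have h2 : ∀ p ∈ (univ : Finset (Fin m)).offDiag, cnt a p.1 a' p.2 = cnt a b a' b' := by
    intro p hp
    exact two_aux a a' _ _ _ _ (by simpa using hp) hb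
  rw [sum_congr rfl h2, sum_const, offDiag_card] at h
  simpa [Fintype.card_perm] using h

/-- the value of `cnt` -/
noncomputable def v (m : ℕ) (p p' : Prop) [Decidable p] [Decidable p'] : ℝ :=
  if p then (if p' then (m ! : ℝ) / m else 0) else
    (if p' then 0 else (m ! : ℝ) / ((m : ℝ) * ((m : ℝ) - 1)))

lemma cnt_eq {m : ℕ} (hm : 2 ≤ m) (a b a' b' : Fin m) :
    (cnt a b a' b' : ℝ) = v m (a' = a) (b' = b) := by
  have hm0 : (m : ℝ) ≠ 0 := by
    have : (0 : ℝ) < m := by exact_mod_cast (by omega : 0 < m)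
    exact this.ne'
  have hm1 : (m : ℝ) - 1 ≠ 0 := by
    have : (2 : ℝ) ≤ m := by exact_mod_cast hm
    intro h; linarith
  unfold v
  by_cases ha : a' = a
  · subst ha
    by_cases hb : b' = b
    · subst hb
      rw [if_pos rfl, if_pos rfl]
      have := one_count a' b'
      unfold cnt
      simp only [and_self]
      rw [eq_div_iff hm0]
      rw [mul_comm]
      exact_mod_cast this
    · rw [if_pos rfl, if_neg hb]
      unfold cnt
      rw [Nat.cast_eq_zero, card_eq_zero, filter_eq_empty_iff]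
      rintro g _ ⟨h1, h2⟩
      exact hb (h2.symm.trans h1)
  · rw [if_neg ha]
    by_cases hb : b' = b
    · subst hb
      rw [if_pos rfl]
      unfold cnt
      rw [Nat.cast_eq_zero, card_eq_zero, filter_eq_empty_iff]
      rintro g _ ⟨h1, h2⟩
      exact ha (g.injective (h2.trans h1.symm))
    · rw [if_neg hb]
      have h := two_count a a' b b' (Ne.symm ha) (Ne.symm hb)
      rw [eq_div_iff (mul_ne_zero hm0 hm1)]
      have h' : (((m * m - m : ℕ) : ℝ)) * (cnt a b a' b' : ℝ) = (m ! : ℝ) := by exact_mod_cast h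
      rw [Nat.cast_sub (Nat.le_mul_self m)] at h'
      push_cast at h'
      linarith [h']

/-- the number of transversals of the array with columns `A j` -/
noncomputable def NN {m : ℕ} (A : Fin m → Perm (Fin m)) : ℝ :=
  ∑ σ : Perm (Fin m), ∑ s : Perm (Fin m), if (∀ j, A j (σ j) = s j) then 1 else 0

lemma sum_prod {m : ℕ} (f : Fin m → Perm (Fin m) → ℝ) :
    ∑ A : Fin m → Perm (Fin m), ∏ j, f j (A j) = ∏ j, ∑ g : Perm (Fin m), f j g := by
  rw [prod_univ_sum, Fintype.piFinset_univ]

lemma first {m : ℕ} (hm : 0 < m) :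
    ∑ A : Fin m → Perm (Fin m), NN A = (m ! : ℝ) ^ 2 * ((m ! : ℝ) / m) ^ m := by
  unfold NN
  rw [sum_comm]
  have : ∀ σ : Perm (Fin m), ∑ A : Fin m → Perm (Fin m), ∑ s : Perm (Fin m),
      (if (∀ j, A j (σ j) = s j) then (1 : ℝ) else 0) = (m ! : ℝ) * ((m ! : ℝ) / m) ^ m := by
    intro σ
    rw [sum_comm]
    have h2 : ∀ s : Perm (Fin m), ∑ A : Fin m → Perm (Fin m),
        (if (∀ j, A j (σ j) = s j) then (1 : ℝ) else 0) = ((m ! : ℝ) / m) ^ m := by
      intro s
      have h3 : ∀ A : Fin m → Perm (Fin m), (if (∀ j, A j (σ j) = s j) then (1 : ℝ) else 0) =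
          ∏ j, (if A j (σ j) = s j then (1 : ℝ) else 0) := by
        intro A
        rw [prod_boole]; simp
      simp_rw [h3]
      rw [sum_prod (fun j g => if g (σ j) = s j then (1 : ℝ) else 0)]
      rw [prod_congr rfl (g := fun _ => (m ! : ℝ) / m)]
      · simp [div_pow]
      · intro j _
        rw [sum_boole, eq_div_iff (by positivity), mul_comm]
        exact_mod_cast one_count (σ j) (s j)
    simp_rw [h2]
    simp [Fintype.card_perm]
  simp_rw [this]
  simp [Fintype.card_perm]
  ring

/-- fixed points -/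
def fx {m : ℕ} (ρ : Perm (Fin m)) : Finset (Fin m) := univ.filter fun j => ρ j = j

lemma fx_count {m : ℕ} (K : Finset (Fin m)) :
    (univ.filter fun ρ : Perm (Fin m) => fx ρ = K).card = numDerangements (m - K.card) := by
  classical
  have e := derangements.subtypeEquiv (fun a : Fin m => a ∉ K)
  have h1 : Fintype.card (derangements {a : Fin m // a ∉ K}) = numDerangements (m - K.card) := by
    rw [card_derangements_eq_numDerangements]
    congr 1
    rw [Fintype.card_subtype_compl (fun a => a ∈ K)]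
    simp
  rw [← h1, Fintype.card_congr e, Fintype.card_subtype]
  congr 1
  ext ρ
  simp only [mem_filter, mem_univ, true_and, fx, Finset.ext_iff, Function.mem_fixedPoints,
    Function.IsFixedPt, not_not]
  exact forall_congr' fun a => Iff.comm

/-- weight -/
noncomputable def W (m k : ℕ) : ℝ :=
  ((m ! : ℝ) / m) ^ k * ((m ! : ℝ) / ((m : ℝ) * ((m : ℝ) - 1))) ^ (m - k)

lemma prod_v {m : ℕ} (ρ π : Perm (Fin m)) :
    ∏ j, v m (ρ j = j) (π j = j) = if fx ρ = fx π then W m (fx ρ).card else 0 := by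
  by_cases h : fx ρ = fx π
  · rw [if_pos h]
    have h' : ∀ j, (ρ j = j ↔ π j = j) := by
      intro j
      have := Finset.ext_iff.1 h j
      simpa [fx] using this
    have h2 : ∀ j, v m (ρ j = j) (π j = j) = if ρ j = j then (m ! : ℝ) / m else
        (m ! : ℝ) / ((m : ℝ) * ((m : ℝ) - 1)) := by
      intro j
      unfold v
      by_cases hj : ρ j = j
      · rw [if_pos hj, if_pos ((h' j).1 hj), if_pos hj]
      · rw [if_neg hj, if_neg (fun h => hj ((h' j).2 h)), if_neg hj]
    simp_rw [h2]
    rw [prod_ite, prod_const, prod_const]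
    unfold W
    have h3 : (univ.filter fun j => ¬ ρ j = j).card = m - (fx ρ).card := by
      have := card_filter_add_card_filter_not (s := (univ : Finset (Fin m)))
        (fun j => ρ j = j)
      simp only [card_univ, Fintype.card_fin] at this
      unfold fx
      omega
    rw [h3]
    rfl
  · rw [if_neg h]
    have : ∃ j, ¬ (ρ j = j ↔ π j = j) := by
      by_contra hc
      apply h
      ext j
      have hj := not_not.1 (not_exists.1 hc j)
      simp [fx, hj]
    obtain ⟨j, hj⟩ := this
    apply prod_eq_zero (mem_univ j)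
    unfold v
    by_cases h1 : ρ j = j
    · rw [if_pos h1, if_neg (fun h2 => hj ⟨fun _ => h2, fun _ => h1⟩)]
    · rw [if_neg h1, if_pos]
      by_contra h2
      exact hj ⟨fun h => absurd h h1, fun h => absurd h h2⟩

lemma sum_v {m : ℕ} :
    ∑ ρ : Perm (Fin m), ∑ π : Perm (Fin m), ∏ j, v m (ρ j = j) (π j = j) =
    ∑ k ∈ range (m + 1), (m.choose k : ℝ) * ((numDerangements (m - k) : ℝ) ^ 2 * W m k) := by
  simp_rw [prod_v]
  have h1 : ∀ ρ : Perm (Fin m), ∑ π : Perm (Fin m), (if fx ρ = fx π then W m (fx ρ).card else 0) =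
      (numDerangements (m - (fx ρ).card) : ℝ) * W m (fx ρ).card := by
    intro ρ
    rw [← sum_filter, sum_const, nsmul_eq_mul]
    congr 1
    rw [← fx_count (fx ρ)]
    congr 2
    ext π
    simp [eq_comm]
  simp_rw [h1]
  have h2 : ∑ ρ : Perm (Fin m), (numDerangements (m - (fx ρ).card) : ℝ) * W m (fx ρ).card =
      ∑ K ∈ (univ : Finset (Fin m)).powerset, ∑ ρ ∈ univ.filter (fun ρ : Perm (Fin m) => fx ρ = K),
        (numDerangements (m - (fx ρ).card) : ℝ) * W m (fx ρ).card := by
    rw [sum_fiberwise_of_maps_to]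
    intro ρ _
    simp
  rw [h2]
  have h3 : ∀ K ∈ (univ : Finset (Fin m)).powerset,
      ∑ ρ ∈ univ.filter (fun ρ : Perm (Fin m) => fx ρ = K),
        (numDerangements (m - (fx ρ).card) : ℝ) * W m (fx ρ).card =
      (numDerangements (m - K.card) : ℝ) ^ 2 * W m K.card := by
    intro K _
    rw [sum_congr rfl (g := fun _ => (numDerangements (m - K.card) : ℝ) * W m K.card)]
    · rw [sum_const, fx_count, nsmul_eq_mul]
      ring
    · intro ρ hρ
      rw [(mem_filter.1 hρ).2]
  rw [sum_congr rfl h3,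
    sum_powerset_apply_card (fun k => (numDerangements (m - k) : ℝ) ^ 2 * W m k)]
  simp [nsmul_eq_mul]

lemma second {m : ℕ} (hm : 2 ≤ m) :
    ∑ A : Fin m → Perm (Fin m), NN A ^ 2 = (m ! : ℝ) ^ 2 *
    ∑ k ∈ range (m + 1), (m.choose k : ℝ) * ((numDerangements (m - k) : ℝ) ^ 2 * W m k) := by
  rw [← sum_v]
  have h1 : ∀ A : Fin m → Perm (Fin m), NN A ^ 2 = ∑ σ : Perm (Fin m), ∑ s : Perm (Fin m),
      ∑ τ : Perm (Fin m), ∑ t : Perm (Fin m),
      ∏ j, (if A j (σ j) = s j ∧ A j (τ j) = t j then (1 : ℝ) else 0) := by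
    intro A
    unfold NN
    rw [pow_two, sum_mul]
    refine sum_congr rfl fun σ _ => ?_
    rw [sum_mul]
    refine sum_congr rfl fun s _ => ?_
    rw [mul_sum]
    refine sum_congr rfl fun τ _ => ?_
    rw [mul_sum]
    refine sum_congr rfl fun t _ => ?_
    rw [prod_boole]
    by_cases h1 : ∀ j, A j (σ j) = s j
    · by_cases h2 : ∀ j, A j (τ j) = t j
      · rw [if_pos h1, if_pos h2, if_pos (fun j _ => ⟨h1 j, h2 j⟩)]; simp
      · rw [if_pos h1, if_neg h2, if_neg (fun h => h2 fun j => (h j (mem_univ j)).2)]; simp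
    · rw [if_neg h1, zero_mul, if_neg (fun h => h1 fun j => (h j (mem_univ j)).1)]
  simp_rw [h1]
  rw [sum_comm]
  have h2 : ∀ σ : Perm (Fin m), ∑ A : Fin m → Perm (Fin m), ∑ s : Perm (Fin m),
      ∑ τ : Perm (Fin m), ∑ t : Perm (Fin m),
      ∏ j, (if A j (σ j) = s j ∧ A j (τ j) = t j then (1 : ℝ) else 0) =
      (m ! : ℝ) * ∑ ρ : Perm (Fin m), ∑ π : Perm (Fin m), ∏ j, v m (ρ j = j) (π j = j) := by
    intro σ
    rw [sum_comm]
    have h3 : ∀ s : Perm (Fin m), ∑ A : Fin m → Perm (Fin m),
        ∑ τ : Perm (Fin m), ∑ t : Perm (Fin m),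
        ∏ j, (if A j (σ j) = s j ∧ A j (τ j) = t j then (1 : ℝ) else 0) =
        ∑ ρ : Perm (Fin m), ∑ π : Perm (Fin m), ∏ j, v m (ρ j = j) (π j = j) := by
      intro s
      rw [sum_comm, ← Equiv.sum_comp (Equiv.mulLeft σ)]
      refine sum_congr rfl fun ρ _ => ?_
      rw [sum_comm, ← Equiv.sum_comp (Equiv.mulLeft s)]
      refine sum_congr rfl fun π _ => ?_
      rw [sum_prod (fun j g => if g (σ j) = s j ∧ g ((Equiv.mulLeft σ ρ) j) = (Equiv.mulLeft s π) j
        then (1 : ℝ) else 0)]
      refine prod_congr rfl fun j _ => ?_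
      rw [sum_boole]
      have := cnt_eq hm (σ j) (s j) ((Equiv.mulLeft σ ρ) j) ((Equiv.mulLeft s π) j)
      unfold cnt at this
      rw [this]
      unfold v
      simp only [Equiv.coe_mulLeft, Perm.mul_apply, EmbeddingLike.apply_eq_iff_eq]
    simp_rw [h3]
    simp [Fintype.card_perm]
  simp_rw [h2]
  simp [Fintype.card_perm]
  ring

end Pool.Agent.Lib.AlmostAllCL
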