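import Mathlib
import Pool.Agent.Lib.AlmostAllCL.Analysis
import Pool.Agent.Lib.AlmostAllCL.Count

open Filter Topology Finset
open scoped Nat

namespace Pool.Agent.Lib.AlmostAllCL

open Equiv

lemma second_q {m : ℕ} (hm : 2 ≤ m) :
    ∑ A : Fin m → Perm (Fin m), NN A ^ 2 = (m ! : ℝ) ^ m * ((m ! : ℝ) ^ 2 / (m : ℝ) ^ m) ^ 2 *
      ∑ k ∈ range (m + 1), q m k := by
  rw [second hm, mul_sum, mul_sum]
  refine sum_congr rfl fun k hk => ?_
  have hk' : k ≤ m := by have := mem_range.1 hk; omega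
  unfold q W
  rw [if_pos hk']
  have hm0 : (m : ℝ) ≠ 0 := by
    have : (0 : ℝ) < m := by exact_mod_cast (by omega : 0 < m)
    exact this.ne'
  have hm1 : (m : ℝ) - 1 ≠ 0 := by
    have : (2 : ℝ) ≤ m := by exact_mod_cast hm
    intro h; linarith
  have hf : (m ! : ℝ) ≠ 0 := by positivity
  have e1 : (m ! : ℝ) ^ m = (m ! : ℝ) ^ k * (m ! : ℝ) ^ (m - k) := by
    rw [← pow_add]; congr 1; omega
  have e2 : (m : ℝ) ^ m = (m : ℝ) ^ k * (m : ℝ) ^ (m - k) := by
    rw [← pow_add]; congr 1; omega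
  rw [e1, e2]
  simp only [div_pow, mul_pow]
  field_simp

lemma card_om (m n : ℕ) : ((univ : Finset (Fin n → Perm (Fin m))).card : ℝ) = (m ! : ℝ) ^ n := by
  simp [Fintype.card_perm]

lemma core (ε : ℝ) (hε : 0 < ε) : ∃ m₀ : ℕ, 2 ≤ m₀ ∧ ∀ m ≥ m₀,
    (1 - ε) * (m ! : ℝ) ^ m ≤ ((univ.filter fun A : Fin m → Perm (Fin m) =>
      |NN A - (m ! : ℝ) ^ 2 / (m : ℝ) ^ m| ≤ ε * ((m ! : ℝ) ^ 2 / (m : ℝ) ^ m)).card : ℝ) := by
  have h1 := sum_lim.eventually (gt_mem_nhds (show (1 : ℝ) < 1 + ε ^ 3 by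
    have : 0 < ε ^ 3 := by positivity
    linarith))
  obtain ⟨m₁, hm₁⟩ := eventually_atTop.1 h1
  refine ⟨max m₁ 2, le_max_right _ _, fun m hm => ?_⟩
  have hm2 : 2 ≤ m := le_trans (le_max_right _ _) hm
  have hQ := hm₁ m (le_trans (le_max_left _ _) hm)
  set Q := ∑ k ∈ range (m + 1), q m k with hQd
  set μ : ℝ := (m ! : ℝ) ^ 2 / (m : ℝ) ^ m with hμ
  have hm0 : (0 : ℝ) < m := by exact_mod_cast (by omega : 0 < m)
  have hμp : 0 < μ := by positivity
  have hf : (0 : ℝ) < (m ! : ℝ) ^ m := by positivity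
  have hfirst : ∑ A : Fin m → Perm (Fin m), NN A = (m ! : ℝ) ^ m * μ := by
    rw [first (by omega), hμ, div_pow]; field_simp
  have hsecond : ∑ A : Fin m → Perm (Fin m), NN A ^ 2 = (m ! : ℝ) ^ m * μ ^ 2 * Q :=
    second_q hm2
  have hvar : ∑ A : Fin m → Perm (Fin m), (NN A - μ) ^ 2 = (m ! : ℝ) ^ m * μ ^ 2 * (Q - 1) := by
    have : ∀ A : Fin m → Perm (Fin m), (NN A - μ) ^ 2 = NN A ^ 2 - 2 * μ * NN A + μ ^ 2 := by
      intro A; ring
    simp_rw [this]
    rw [sum_add_distrib, sum_sub_distrib, ← mul_sum, hfirst, hsecond, sum_const, nsmul_eq_mul,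
      card_om]
    ring
  set B := univ.filter fun A : Fin m → Perm (Fin m) => ¬ |NN A - μ| ≤ ε * μ with hB
  have hcheb : (B.card : ℝ) * (ε * μ) ^ 2 ≤ ∑ A : Fin m → Perm (Fin m), (NN A - μ) ^ 2 := by
    calc (B.card : ℝ) * (ε * μ) ^ 2 = ∑ A ∈ B, (ε * μ) ^ 2 := by rw [sum_const, nsmul_eq_mul]
      _ ≤ ∑ A ∈ B, (NN A - μ) ^ 2 := by
          refine sum_le_sum fun A hA => ?_
          have := (mem_filter.1 hA).2
          rw [← sq_abs (NN A - μ)]
          exact pow_le_pow_left₀ (by positivity) (le_of_lt (not_le.1 this)) 2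
      _ ≤ ∑ A : Fin m → Perm (Fin m), (NN A - μ) ^ 2 :=
          sum_le_sum_of_subset_of_nonneg (filter_subset _ _) fun _ _ _ => sq_nonneg _
  rw [hvar] at hcheb
  have hBle : (B.card : ℝ) ≤ ε * (m ! : ℝ) ^ m := by
    have h3 : (B.card : ℝ) * (ε * μ) ^ 2 ≤ (ε * (m ! : ℝ) ^ m) * (ε * μ) ^ 2 := by
      refine hcheb.trans ?_
      have : Q - 1 ≤ ε ^ 3 := by linarith
      calc (m ! : ℝ) ^ m * μ ^ 2 * (Q - 1) ≤ (m ! : ℝ) ^ m * μ ^ 2 * ε ^ 3 := by
            gcongr
        _ = (ε * (m ! : ℝ) ^ m) * (ε * μ) ^ 2 := by ring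
    exact le_of_mul_le_mul_right h3 (by positivity)
  have hsum := card_filter_add_card_filter_not (s := (univ : Finset (Fin m → Perm (Fin m))))
    (fun A => |NN A - μ| ≤ ε * μ)
  have hsum' : ((univ.filter fun A : Fin m → Perm (Fin m) => |NN A - μ| ≤ ε * μ).card : ℝ) +
      (B.card : ℝ) = (m ! : ℝ) ^ m := by
    rw [← card_om m m, ← hsum]; push_cast; rfl
  linarith

lemma NN_eq {m : ℕ} (M : Fin m → Perm (Fin m)) :
    NN M = (Nat.card {c : Fin m → Fin m // Function.Injective c ∧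
      Function.Injective fun i => M (c i) i} : ℝ) := by
  classical
  have h1 : ∀ σ : Perm (Fin m), ∑ s : Perm (Fin m), (if (∀ j, M j (σ j) = s j) then (1 : ℝ) else 0)
      = if Function.Injective (fun j => M j (σ j)) then 1 else 0 := by
    intro σ
    by_cases h : Function.Injective (fun j => M j (σ j))
    · rw [if_pos h]
      set s₀ : Perm (Fin m) := Equiv.ofBijective _ (Finite.injective_iff_bijective.1 h) with hs
      have : ∀ s : Perm (Fin m), (∀ j, M j (σ j) = s j) ↔ s₀ = s := by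
        intro s
        constructor
        · intro h; ext j; rw [hs, Equiv.ofBijective_apply, h j]
        · rintro rfl j; rfl
      simp_rw [this]
      simp
    · rw [if_neg h]
      apply sum_eq_zero
      intro s _
      rw [if_neg]
      intro h'
      apply h
      have : (fun j => M j (σ j)) = s := funext h'
      rw [this]; exact s.injective
  unfold NN
  simp_rw [h1]
  rw [sum_boole]
  norm_cast
  rw [← Fintype.card_subtype, ← Nat.card_eq_fintype_card]
  refine Nat.card_congr ?_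
  refine
    { toFun := fun σ => ⟨fun i => σ.1.symm i, σ.1.symm.injective, ?_⟩
      invFun := fun c => ⟨(Equiv.ofBijective c.1 (Finite.injective_iff_bijective.1 c.2.1)).symm, ?_⟩
      left_inv := ?_
      right_inv := ?_ }
  · have h := σ.2.comp σ.1.symm.injective
    have e : (fun i => M (σ.1.symm i) i) = (fun j => M j (σ.1 j)) ∘ σ.1.symm := by
      funext i; simp
    rw [e]; exact h
  · set e := Equiv.ofBijective c.1 (Finite.injective_iff_bijective.1 c.2.1) with he
    have h := c.2.2.comp e.symm.injective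
    have e' : (fun j => M j (e.symm j)) = (fun i => M (c.1 i) i) ∘ e.symm := by
      funext j
      have : c.1 (e.symm j) = j := e.apply_symm_apply j
      simp only [Function.comp, this]
    rw [e']; exact h
  · intro σ
    apply Subtype.ext
    ext j
    simp only
    congr 1
    rw [Equiv.symm_apply_eq]
    simp
  · intro c
    apply Subtype.ext
    funext i
    rfl

end Pool.Agent.Lib.AlmostAllCL
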