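import Mathlib
import Pool.Agent.Lib.AlmostAllCL.Cheb

open Filter Topology Finset
open scoped Nat

namespace Pool.Agent.Lib.AlmostAllCL

open Equiv

lemma l1 (ε : ℝ) (hε : 0 < ε) : ∃ m₀ : ℕ, 2 ≤ m₀ ∧ ∀ m ≥ m₀,
    ∑ A : Fin m → Perm (Fin m), |NN A - (m ! : ℝ) ^ 2 / (m : ℝ) ^ m| ≤
      ε ^ 2 * ((m ! : ℝ) ^ m * ((m ! : ℝ) ^ 2 / (m : ℝ) ^ m)) := by
  have h1 := sum_lim.eventually (gt_mem_nhds (show (1 : ℝ) < 1 + (ε ^ 2) ^ 2 by
    have : 0 < (ε ^ 2) ^ 2 := by positivity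
    linarith))
  obtain ⟨m₁, hm₁⟩ := eventually_atTop.1 h1
  refine ⟨max m₁ 2, le_max_right _ _, fun m hm => ?_⟩
  have hm2 : 2 ≤ m := le_trans (le_max_right _ _) hm
  have hQ := hm₁ m (le_trans (le_max_left _ _) hm)
  set Q := ∑ k ∈ range (m + 1), q m k with hQd
  set μ : ℝ := (m ! : ℝ) ^ 2 / (m : ℝ) ^ m with hμ
  have hm0 : (0 : ℝ) < m := by exact_mod_cast (by omega : 0 < m)
  have hμp : 0 < μ := by positivity
  have hf : (0 : ℝ) < (m ! : ℝ) ^ m := by positivity
  have hfirst : ∑ A : Fin m → Perm (Fin m), NN A = (m ! : ℝ) ^ m * μ := by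
    rw [first (by omega), hμ, div_pow]; field_simp
  have hsecond : ∑ A : Fin m → Perm (Fin m), NN A ^ 2 = (m ! : ℝ) ^ m * μ ^ 2 * Q :=
    second_q hm2
  have hvar : ∑ A : Fin m → Perm (Fin m), (NN A - μ) ^ 2 = (m ! : ℝ) ^ m * μ ^ 2 * (Q - 1) := by
    have : ∀ A : Fin m → Perm (Fin m), (NN A - μ) ^ 2 = NN A ^ 2 - 2 * μ * NN A + μ ^ 2 := by
      intro A; ring
    simp_rw [this]
    rw [sum_add_distrib, sum_sub_distrib, ← mul_sum, hfirst, hsecond, sum_const, nsmul_eq_mul,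
      card_om]
    ring
  set δ : ℝ := ε ^ 2 with hδ
  have hδp : 0 < δ := by positivity
  have hd : 0 < δ * μ := by positivity
  have hpt : ∀ A : Fin m → Perm (Fin m), |NN A - μ| ≤
      (1 / (2 * (δ * μ))) * (NN A - μ) ^ 2 + δ * μ / 2 := by
    intro A
    have h2 : 0 ≤ (|NN A - μ| - δ * μ) ^ 2 := sq_nonneg _
    have h3 : |NN A - μ| * (2 * (δ * μ)) ≤ (NN A - μ) ^ 2 + (δ * μ) ^ 2 := by
      rw [← sq_abs (NN A - μ)]; nlinarith
    have h4 : |NN A - μ| ≤ ((NN A - μ) ^ 2 + (δ * μ) ^ 2) / (2 * (δ * μ)) := by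
      rw [le_div_iff₀ (by positivity)]; exact h3
    refine h4.trans (le_of_eq ?_)
    field_simp
  calc ∑ A : Fin m → Perm (Fin m), |NN A - μ|
      ≤ ∑ A : Fin m → Perm (Fin m), ((1 / (2 * (δ * μ))) * (NN A - μ) ^ 2 + δ * μ / 2) :=
        sum_le_sum fun A _ => hpt A
    _ = (1 / (2 * (δ * μ))) * ((m ! : ℝ) ^ m * μ ^ 2 * (Q - 1)) + (m ! : ℝ) ^ m * (δ * μ / 2) := by
        rw [sum_add_distrib, ← mul_sum, hvar, sum_const, nsmul_eq_mul, card_om]
    _ ≤ (1 / (2 * (δ * μ))) * ((m ! : ℝ) ^ m * μ ^ 2 * δ ^ 2) + (m ! : ℝ) ^ m * (δ * μ / 2) := by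
        have : Q - 1 ≤ δ ^ 2 := by linarith
        gcongr
    _ = δ * ((m ! : ℝ) ^ m * μ) := by field_simp; ring

/-- the number of transversals of the `m × n` array with columns `M j` -/
noncomputable def TT {m n : ℕ} (M : Fin n → Perm (Fin m)) : ℝ :=
  (Nat.card {c : Fin m → Fin n // Function.Injective c ∧
    Function.Injective fun i => M (c i) i} : ℝ)

lemma TT_eq {m n : ℕ} (M : Fin n → Perm (Fin m)) :
    TT M = ∑ c : Fin m ↪ Fin n, if Function.Injective (fun i => M (c i) i) then (1 : ℝ) else 0 := by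
  classical
  unfold TT
  rw [sum_boole]
  norm_cast
  rw [← Fintype.card_subtype, ← Nat.card_eq_fintype_card]
  refine Nat.card_congr ?_
  exact
    { toFun := fun c => ⟨⟨c.1, c.2.1⟩, c.2.2⟩
      invFun := fun c => ⟨c.1, c.1.injective, c.2⟩
      left_inv := fun c => rfl
      right_inv := fun c => rfl }

lemma NN_ind {m : ℕ} (M : Fin m → Perm (Fin m)) :
    NN M = ∑ σ : Perm (Fin m), if Function.Injective (fun j => M j (σ j)) then (1 : ℝ) else 0 := by
  classical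
  unfold NN
  refine sum_congr rfl fun σ _ => ?_
  by_cases h : Function.Injective (fun j => M j (σ j))
  · rw [if_pos h]
    set s₀ : Perm (Fin m) := Equiv.ofBijective _ (Finite.injective_iff_bijective.1 h) with hs
    have : ∀ s : Perm (Fin m), (∀ j, M j (σ j) = s j) ↔ s₀ = s := by
      intro s
      constructor
      · intro h; ext j; rw [hs, Equiv.ofBijective_apply, h j]
      · rintro rfl j; rfl
    simp_rw [this]
    simp
  · rw [if_neg h]
    apply sum_eq_zero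
    intro s _
    rw [if_neg]
    intro h'
    apply h
    have : (fun j => M j (σ j)) = s := funext h'
    rw [this]; exact s.injective

/-- every transversal is counted `m!` times -/
lemma sum_emb {m n : ℕ} (M : Fin n → Perm (Fin m)) :
    ∑ e : Fin m ↪ Fin n, NN (fun j => M (e j)) = (m ! : ℝ) * TT M := by
  classical
  simp_rw [NN_ind]
  rw [sum_comm]
  have h : ∀ σ : Perm (Fin m), ∑ e : Fin m ↪ Fin n,
      (if Function.Injective (fun j => M (e j) (σ j)) then (1 : ℝ) else 0) = TT M := by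
    intro σ
    rw [TT_eq]
    refine Fintype.sum_equiv (Equiv.embeddingCongr σ (Equiv.refl (Fin n))) _ _ fun e => ?_
    have h1 : Function.Injective (fun j => M (e j) (σ j)) ↔
        Function.Injective (fun i => M ((Equiv.embeddingCongr σ (Equiv.refl (Fin n))) e i) i) := by
      have h2 : (fun j => M (e j) (σ j)) =
          (fun i => M ((Equiv.embeddingCongr σ (Equiv.refl (Fin n))) e i) i) ∘ σ := by
        funext j
        simp [Equiv.embeddingCongr]
      rw [h2]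
      exact Function.Injective.of_comp_iff' _ σ.bijective
    simp only [h1]
  simp_rw [h]
  simp [Fintype.card_perm]

/-- marginals of a uniformly random sequence are uniform -/
lemma marg {m n : ℕ} (e : Fin m ↪ Fin n) (f : (Fin m → Perm (Fin m)) → ℝ) :
    ∑ M : Fin n → Perm (Fin m), f (fun i => M (e i)) =
      (m ! : ℝ) ^ (n - m) * ∑ M' : Fin m → Perm (Fin m), f M' := by
  classical
  set p : Fin n → Prop := fun x => x ∈ Set.range e with hp
  have e1 := Equiv.piEquivPiSubtypeProd p (fun _ => Perm (Fin m))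
  have h1 : ∑ M : Fin n → Perm (Fin m), f (fun i => M (e i)) =
      ∑ ab : ({x // p x} → Perm (Fin m)) × ({x // ¬ p x} → Perm (Fin m)),
        f (fun i => ab.1 ⟨e i, i, rfl⟩) := by
    refine Fintype.sum_equiv (Equiv.piEquivPiSubtypeProd p (fun _ => Perm (Fin m))) _ _ fun M => ?_
    rfl
  rw [h1, Fintype.sum_prod_type]
  simp only [sum_const, nsmul_eq_mul]
  have hcard : ((univ : Finset ({x // ¬ p x} → Perm (Fin m))).card : ℝ) = (m ! : ℝ) ^ (n - m) := by
    rw [card_univ, Fintype.card_fun, Fintype.card_perm, Fintype.card_fin]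
    have : Fintype.card {x // ¬ p x} = n - m := by
      rw [Fintype.card_subtype_compl]
      congr 1
      · simp
      · have := Fintype.card_congr (Equiv.ofInjective e e.injective)
        rw [Fintype.card_fin] at this
        exact this.symm
    rw [this]; push_cast; rfl
  rw [hcard, ← mul_sum]
  congr 1
  let e2 : Fin m ≃ {x // p x} := Equiv.ofInjective e e.injective
  refine Fintype.sum_equiv (Equiv.arrowCongr e2.symm (Equiv.refl (Perm (Fin m)))) _ _ fun a => ?_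
  rfl

lemma main (ε : ℝ) (hε : 0 < ε) : ∃ m₀ : ℕ, 2 ≤ m₀ ∧ ∀ m ≥ m₀, ∀ n ≥ m,
    (1 - ε) * (m ! : ℝ) ^ n ≤ ((univ.filter fun M : Fin n → Perm (Fin m) =>
      |TT M - (n.descFactorial m : ℝ) * (m ! : ℝ) / (m : ℝ) ^ m| ≤
        ε * ((n.descFactorial m : ℝ) * (m ! : ℝ) / (m : ℝ) ^ m)).card : ℝ) := by
  obtain ⟨m₀, hm₀2, hm₀⟩ := l1 ε hε
  refine ⟨m₀, hm₀2, fun m hm n hn => ?_⟩
  have h1 := hm₀ m hm
  set μ : ℝ := (m ! : ℝ) ^ 2 / (m : ℝ) ^ m with hμ
  set D : ℝ := (n.descFactorial m : ℝ) * (m ! : ℝ) / (m : ℝ) ^ m with hD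
  have hm0 : (0 : ℝ) < m := by exact_mod_cast (by omega : 0 < m)
  have hdf : (0 : ℝ) < (n.descFactorial m : ℝ) := by exact_mod_cast Nat.descFactorial_pos.2 hn
  have hDp : 0 < D := by positivity
  have hmf : (0 : ℝ) < (m ! : ℝ) := by positivity
  have hDμ : (m ! : ℝ) * D = (n.descFactorial m : ℝ) * μ := by
    rw [hD, hμ]; ring
  have hcardE : ((univ : Finset (Fin m ↪ Fin n)).card : ℝ) = (n.descFactorial m : ℝ) := by
    rw [card_univ, Fintype.card_embedding_eq, Fintype.card_fin, Fintype.card_fin]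
  have hL : (m ! : ℝ) * ∑ M : Fin n → Perm (Fin m), |TT M - D| ≤
      (m ! : ℝ) * (ε ^ 2 * ((m ! : ℝ) ^ n * D)) := by
    calc (m ! : ℝ) * ∑ M : Fin n → Perm (Fin m), |TT M - D|
        = ∑ M : Fin n → Perm (Fin m), |∑ e : Fin m ↪ Fin n, (NN (fun j => M (e j)) - μ)| := by
          rw [mul_sum]
          refine sum_congr rfl fun M _ => ?_
          rw [sum_sub_distrib, sum_emb, sum_const, nsmul_eq_mul, hcardE, ← hDμ, ← mul_sub, abs_mul,
            abs_of_pos hmf]
      _ ≤ ∑ M : Fin n → Perm (Fin m), ∑ e : Fin m ↪ Fin n, |NN (fun j => M (e j)) - μ| :=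
          sum_le_sum fun M _ => abs_sum_le_sum_abs _ _
      _ = ∑ e : Fin m ↪ Fin n, (m ! : ℝ) ^ (n - m) * ∑ M' : Fin m → Perm (Fin m), |NN M' - μ| := by
          rw [sum_comm]
          exact sum_congr rfl fun e _ => marg e (fun M' => |NN M' - μ|)
      _ = (n.descFactorial m : ℝ) * ((m ! : ℝ) ^ (n - m) *
            ∑ M' : Fin m → Perm (Fin m), |NN M' - μ|) := by
          rw [sum_const, nsmul_eq_mul, hcardE]
      _ ≤ (n.descFactorial m : ℝ) * ((m ! : ℝ) ^ (n - m) * (ε ^ 2 * ((m ! : ℝ) ^ m * μ))) := by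
          gcongr
      _ = ε ^ 2 * (((m ! : ℝ) ^ (n - m) * (m ! : ℝ) ^ m) * ((n.descFactorial m : ℝ) * μ)) := by
          ring
      _ = (m ! : ℝ) * (ε ^ 2 * ((m ! : ℝ) ^ n * D)) := by
          rw [← pow_add, Nat.sub_add_cancel hn, ← hDμ]; ring
  have hL' : ∑ M : Fin n → Perm (Fin m), |TT M - D| ≤ ε ^ 2 * ((m ! : ℝ) ^ n * D) :=
    le_of_mul_le_mul_left hL hmf
  set B := univ.filter fun M : Fin n → Perm (Fin m) => ¬ |TT M - D| ≤ ε * D with hB
  have hmk : (B.card : ℝ) * (ε * D) ≤ ∑ M : Fin n → Perm (Fin m), |TT M - D| := by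
    calc (B.card : ℝ) * (ε * D) = ∑ M ∈ B, ε * D := by rw [sum_const, nsmul_eq_mul]
      _ ≤ ∑ M ∈ B, |TT M - D| :=
          sum_le_sum fun M hM => le_of_lt (not_le.1 (mem_filter.1 hM).2)
      _ ≤ _ := sum_le_sum_of_subset_of_nonneg (filter_subset _ _) fun _ _ _ => abs_nonneg _
  have hBle : (B.card : ℝ) ≤ ε * (m ! : ℝ) ^ n := by
    have h3 : (B.card : ℝ) * (ε * D) ≤ (ε * (m ! : ℝ) ^ n) * (ε * D) := by
      refine (hmk.trans hL').trans (le_of_eq ?_)
      ring
    exact le_of_mul_le_mul_right h3 (by positivity)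
  have hsum := card_filter_add_card_filter_not (s := (univ : Finset (Fin n → Perm (Fin m))))
    (fun M => |TT M - D| ≤ ε * D)
  have hsum' : ((univ.filter fun M : Fin n → Perm (Fin m) => |TT M - D| ≤ ε * D).card : ℝ) +
      (B.card : ℝ) = (m ! : ℝ) ^ n := by
    rw [← card_om m n, ← hsum]; push_cast; rfl
  linarith

end Pool.Agent.Lib.AlmostAllCL
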